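import Pool.Agent.Helper21.MX.Defs
import Pool.Agent.Helper8.PQ.BadP

/-!
# Exceptional zero tests are rare, for fixed element and mate
-/

set_option autoImplicit false

namespace Pool.Agent.Helper21.MX

open Finset
open Pool.Agent.Helper22.ETModel Pool.Agent.Helper22.TSModel Pool.Agent.Helper22.EP
open Pool.Agent.Helper23.SP (pre sg Om g put supp Free)
open Pool.Agent.Helper8.ZT (pev covp LineOK)
open Pool.Agent.Helper21.DS (cove)
open Pool.Agent.Helper8.PQ
open Pool.Agent.Helper21.MG (SparseForm)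

variable {m n k b U M N d a D W R K : ℕ} [NeZero b]

open Classical in
/-- Exceptional zero tests have small probability, on the basic instance and on the instance in
which the fixed element gets the value of its mate. -/
theorem card_badZM {K' : ℕ} (A : Alg n D W R (PolQ n d a) SignType) (h : 3 * m ≤ n)
    (F' : Fin K' → MvPolynomial (Fin n × Fin n) ℝ) (hFd : ∀ i, (F' i).totalDegree ≤ d)
    {L Y Q : ℕ} (hQ : 1 ≤ Q) (ρ : Fin R → Bool) (p : Fin m × Fin m)
    (h4 : 256 * (2 * (D * (3 * m ^ 2 * ((2 * d * K' + 1) * a)))) ≤ N + 1) :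
    256 * (univ.filter fun z : Om (E m) k b U × BgM m k U M N =>
      badZ A h F' ρ id (vrM L Y Q z.1 z.2) ∨
      badZ A h F' ρ (plt (0, p.1, p.2) (1, p.2, mte p z.1 z.2.1))
        (vrM L Y Q z.1 z.2)).card ≤
      Fintype.card (Om (E m) k b U × BgM m k U M N) := by
  set c := 2 * (D * (3 * m ^ 2 * ((2 * d * K' + 1) * a))) with hc
  have key : (univ.filter fun z : Om (E m) k b U × BgM m k U M N =>
      badZ A h F' ρ id (vrM L Y Q z.1 z.2) ∨
      badZ A h F' ρ (plt (0, p.1, p.2) (1, p.2, mte p z.1 z.2.1))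
        (vrM L Y Q z.1 z.2)).card * (N + 1) ≤
      c * Fintype.card (Om (E m) k b U × BgM m k U M N) := by
    refine card_prod_le (fun (ω : Om (E m) k b U) (lam : BgM m k U M N) =>
      badZ A h F' ρ id (vrM L Y Q ω lam) ∨
      badZ A h F' ρ (plt (0, p.1, p.2) (1, p.2, mte p ω lam.1)) (vrM L Y Q ω lam))
      (N + 1) c fun ω => ?_
    refine card_prod_le (fun (δ : E m → Bool) (uξ : (Fin k → Fin U → Fin M) ×
        (E m → Fin (N + 1))) =>
      badZ A h F' ρ id (vrM L Y Q ω (δ, uξ)) ∨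
      badZ A h F' ρ (plt (0, p.1, p.2) (1, p.2, mte p ω δ)) (vrM L Y Q ω (δ, uξ)))
      (N + 1) c fun δ => ?_
    refine card_prod_le (fun (u : Fin k → Fin U → Fin M) (ξ : E m → Fin (N + 1)) =>
      badZ A h F' ρ id (vrM L Y Q ω (δ, u, ξ)) ∨
      badZ A h F' ρ (plt (0, p.1, p.2) (1, p.2, mte p ω δ)) (vrM L Y Q ω (δ, u, ξ)))
      (N + 1) c fun u => ?_
    have hsub : (univ.filter fun ξ : E m → Fin (N + 1) =>
        badZ A h F' ρ id (vrM L Y Q ω (δ, u, ξ)) ∨
        badZ A h F' ρ (plt (0, p.1, p.2) (1, p.2, mte p ω δ)) (vrM L Y Q ω (δ, u, ξ))) ⊆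
        (univ.filter fun ξ : E m → Fin (N + 1) =>
          badZ A h F' ρ id (vr L Y Q ω.1 (δ, (fun i c => u i (ω.2 i c)), ξ))) ∪
        (univ.filter fun ξ : E m → Fin (N + 1) =>
          badZ A h F' ρ (plt (0, p.1, p.2) (1, p.2, mte p ω δ))
            (vr L Y Q ω.1 (δ, (fun i c => u i (ω.2 i c)), ξ))) := by
      intro ξ hξ
      rw [mem_union, mem_filter, mem_filter]
      rcases (mem_filter.1 hξ).2 with h5 | h5
      · exact Or.inl ⟨mem_univ _, h5⟩
      · exact Or.inr ⟨mem_univ _, h5⟩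
    set X := D * (3 * m ^ 2 * ((2 * d * K' + 1) * a) * Fintype.card (E m → Fin (N + 1))) with hX
    have e1 := card_badZ_le (N := N) (L := L) (Y := Y) A h F' hFd hQ ρ linT_id ω.1 δ
      (fun i c => u i (ω.2 i c))
    have e2 := card_badZ_le (N := N) (L := L) (Y := Y) A h F' hFd hQ ρ
      (linT_plt (0, p.1, p.2) (1, p.2, mte p ω δ)) ω.1 δ (fun i c => u i (ω.2 i c))
    refine (Nat.mul_le_mul_right _ ((card_le_card hsub).trans (card_union_le _ _))).trans ?_
    rw [add_mul]
    calc _ ≤ X + X := Nat.add_le_add e1 e2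
      _ = c * Fintype.card (E m → Fin (N + 1)) := by rw [hX, hc]; ring
  have hN : 0 < N + 1 := Nat.succ_pos _
  apply Nat.le_of_mul_le_mul_right _ hN
  calc _ = 256 * ((univ.filter fun z : Om (E m) k b U × BgM m k U M N =>
      badZ A h F' ρ id (vrM L Y Q z.1 z.2) ∨
      badZ A h F' ρ (plt (0, p.1, p.2) (1, p.2, mte p z.1 z.2.1))
        (vrM L Y Q z.1 z.2)).card * (N + 1)) := by ring
    _ ≤ 256 * (c * Fintype.card (Om (E m) k b U × BgM m k U M N)) :=
        Nat.mul_le_mul_left _ key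
    _ = (256 * c) * Fintype.card (Om (E m) k b U × BgM m k U M N) := by ring
    _ ≤ (N + 1) * Fintype.card (Om (E m) k b U × BgM m k U M N) :=
        Nat.mul_le_mul_right _ h4
    _ = _ := Nat.mul_comm _ _

end Pool.Agent.Helper21.MX
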