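import Pool.Agent.Helper21.MX.Defs

/-!
# The lists of the dense sign queries and of all sign queries

The sparse forms are listed by their coefficients, cells and constant terms.
-/

set_option autoImplicit false

namespace Pool.Agent.Helper21.MX

open Finset
open Pool.Agent.Helper22.ETModel Pool.Agent.Helper22.TSModel Pool.Agent.Helper22.EP
open Pool.Agent.Helper23.SP (pre sg Om g put supp Free)
open Pool.Agent.Helper8.ZT (pev covp LineOK)
open Pool.Agent.Helper21.DS (cove)
open Pool.Agent.Helper8.PQ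
open Pool.Agent.Helper21.MG (SparseForm)

variable {m n k b U M N d a D W R K : ℕ}

/-- The data of a sparse form. -/
abbrev LsCode (n s κ B : ℕ) : Type :=
  (Fin s → (Fin n × Fin n) × Fin (2 * κ + 1)) × Fin (2 * B + 1)

/-- The sparse form with given data. -/
noncomputable def lsPoly {n s κ B : ℕ} (c : LsCode n s κ B) : MvPolynomial (Fin n × Fin n) ℝ :=
  MvPolynomial.C ((((c.2 : ℕ) : ℤ) - (B : ℤ) : ℤ) : ℝ) +
    ∑ l : Fin s, MvPolynomial.C (((((c.1 l).2 : ℕ) : ℤ) - (κ : ℤ) : ℤ) : ℝ) *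
      MvPolynomial.X (c.1 l).1

lemma lsCode_card (n s κ B : ℕ) :
    Fintype.card (LsCode n s κ B) = (n ^ 2 * (2 * κ + 1)) ^ s * (2 * B + 1) := by
  rw [Fintype.card_prod, Fintype.card_fun, Fintype.card_prod, Fintype.card_prod,
    Fintype.card_fin, Fintype.card_fin, Fintype.card_fin, Fintype.card_fin, sq]

lemma lsPoly_deg {n s κ B : ℕ} (c : LsCode n s κ B) : (lsPoly c).totalDegree ≤ 1 := by
  unfold lsPoly
  refine (MvPolynomial.totalDegree_add _ _).trans (max_le ?_ ?_)
  · rw [MvPolynomial.totalDegree_C]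
    exact Nat.zero_le _
  · refine MvPolynomial.totalDegree_finsetSum_le fun l _ => ?_
    refine (MvPolynomial.totalDegree_mul _ _).trans ?_
    rw [MvPolynomial.totalDegree_C, MvPolynomial.totalDegree_X]

/-- An integer of absolute value at most `B` is a shifted element of `Fin (2 * B + 1)`. -/
lemma ls_fin_shift {B : ℕ} {z : ℤ} (hz : |z| ≤ B) :
    ∃ u : Fin (2 * B + 1), ((u : ℕ) : ℤ) - (B : ℤ) = z := by
  have h1 := (abs_le.1 hz).1
  have h2 := (abs_le.1 hz).2
  refine ⟨⟨(z + B).toNat, ?_⟩, ?_⟩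
  · omega
  · simp only
    omega

lemma ls_exists_code {n s κ B : ℕ} {f : MvPolynomial (Fin n × Fin n) ℝ} (hf : SparseForm s κ B f) :
    ∃ c : LsCode n s κ B, lsPoly c = f := by
  obtain ⟨z, γ, v, hz, hγ, rfl⟩ := hf
  obtain ⟨u, hu⟩ := ls_fin_shift hz
  choose w hw using fun l => ls_fin_shift (hγ l)
  refine ⟨(fun l => (v l, w l), u), ?_⟩
  unfold lsPoly
  simp only
  rw [hu]
  congr 1
  refine sum_congr rfl fun l _ => ?_
  rw [hw l]

/-- The list of the dense sign queries and the list of all sign queries, of bounded degree. -/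
theorem few_list {A : Alg n D W R (PolQ n d a) SignType} {s κ B : ℕ} (hA : FewM A s κ B K)
    (hd : 1 ≤ d) (fl : Fin n → Fin n → Bool) (ρ : Fin R → Bool) :
    ∃ (F : Fin K → MvPolynomial (Fin n × Fin n) ℝ)
      (F' : Fin (K + (n ^ 2 * (2 * κ + 1)) ^ s * (2 * B + 1)) → MvPolynomial (Fin n × Fin n) ℝ),
      (∀ i, (F i).totalDegree ≤ d) ∧ (∀ i, (F' i).totalDegree ≤ d) ∧
      (∀ t < D, ∀ v f hf, A.ask fl ρ t v = .sign f hf → SparseForm s κ B f ∨ ∃ i, F i = f) ∧
      (∀ t < D, ∀ v f hf, A.ask fl ρ t v = .sign f hf → ∃ i, F' i = f) := by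
  classical
  obtain ⟨F0, hF0⟩ := hA fl ρ
  let F : Fin K → MvPolynomial (Fin n × Fin n) ℝ := fun i =>
    if (F0 i).totalDegree ≤ d then F0 i else 0
  let e : Fin ((n ^ 2 * (2 * κ + 1)) ^ s * (2 * B + 1)) ≃ LsCode n s κ B :=
    (Fintype.equivFinOfCardEq (lsCode_card n s κ B)).symm
  have hFd : ∀ i, (F i).totalDegree ≤ d := by
    intro i
    show (if (F0 i).totalDegree ≤ d then F0 i else 0).totalDegree ≤ d
    split_ifs with h1
    · exact h1
    · rw [MvPolynomial.totalDegree_zero]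
      exact Nat.zero_le _
  have hF : ∀ t < D, ∀ v f hf, A.ask fl ρ t v = .sign f hf →
      SparseForm s κ B f ∨ ∃ i, F i = f := by
    intro t ht v f hf hq
    rcases hF0 t ht v f hf hq with h1 | ⟨i, hi⟩
    · exact Or.inl h1
    · refine Or.inr ⟨i, ?_⟩
      show (if (F0 i).totalDegree ≤ d then F0 i else 0) = f
      rw [hi, if_pos hf]
  refine ⟨F, Fin.append F fun j => lsPoly (e j), hFd, ?_, hF, ?_⟩
  · intro i
    refine Fin.addCases (fun j => ?_) (fun j => ?_) i
    · rw [Fin.append_left]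
      exact hFd j
    · rw [Fin.append_right]
      exact (lsPoly_deg _).trans hd
  · intro t ht v f hf hq
    rcases hF t ht v f hf hq with h1 | ⟨i, hi⟩
    · obtain ⟨c, hc⟩ := ls_exists_code h1
      refine ⟨Fin.natAdd K (e.symm c), ?_⟩
      rw [Fin.append_right, Equiv.apply_symm_apply, hc]
    · refine ⟨Fin.castAdd _ i, ?_⟩
      rw [Fin.append_left, hi]

end Pool.Agent.Helper21.MX
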